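import Mathlib

/-!
# Isometry of completions versus isometry of positive-radius ball spaces

For nonempty ultrametric spaces `X` and `Y` we prove that the completions of `X` and `Y` are
isometric if and only if the spaces of closed balls of strictly positive radius, with the
Hausdorff distance, are isometric.
-/

open Metric Set UniformSpace

namespace Pool.Agent.Results.MP_856f66_gt.BallSpaceIsometry

universe u v

/-- The set of all closed balls of strictly positive radius of `X`, as subsets of `X`. -/
def PosBalls (X : Type u) [MetricSpace X] : Set (Set X) :=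
  {A | ∃ (c : X) (r : ℝ), 0 < r ∧ A = closedBall c r}

/-- There is a bijection between the positive-radius closed balls of `X` and those of `Y`
which preserves the Hausdorff distance. -/
def BallSpacesIsometric (X : Type u) (Y : Type v) [MetricSpace X] [MetricSpace Y] : Prop :=
  ∃ e : PosBalls X ≃ PosBalls Y, ∀ A B : PosBalls X,
    hausdorffDist (e A : Set Y) (e B : Set Y) = hausdorffDist (A : Set X) (B : Set X)

section One

variable {X : Type u} [MetricSpace X] [IsUltrametricDist X]

/-- the Hausdorff distance between balls -/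
noncomputable abbrev dH (A B : PosBalls X) : ℝ := hausdorffDist (A : Set X) (B : Set X)

/-- the diameter of a ball -/
noncomputable abbrev dm (A : PosBalls X) : ℝ := diam (A : Set X)

/-- the ball with given centre and positive radius -/
def mk (c : X) (r : ℝ) (hr : 0 < r) : PosBalls X := ⟨closedBall c r, c, r, hr, rfl⟩

omit [IsUltrametricDist X] in
lemma nonempty (A : PosBalls X) : (A : Set X).Nonempty := by
  obtain ⟨A, c, r, hr, rfl⟩ := A
  exact ⟨c, mem_closedBall_self hr.le⟩

omit [IsUltrametricDist X] in
lemma bounded (A : PosBalls X) : Bornology.IsBounded (A : Set X) := by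
  obtain ⟨A, c, r, hr, rfl⟩ := A
  exact isBounded_closedBall

omit [IsUltrametricDist X] in
lemma edist_ne_top (A B : PosBalls X) : hausdorffEDist (A : Set X) (B : Set X) ≠ ⊤ :=
  hausdorffEDist_ne_top_of_nonempty_of_bounded (nonempty A) (nonempty B) (bounded A) (bounded B)

omit [IsUltrametricDist X] in
lemma dH_comm (A B : PosBalls X) : dH A B = dH B A := hausdorffDist_comm

omit [IsUltrametricDist X] in
lemma dH_self (A : PosBalls X) : dH A A = 0 := hausdorffDist_self_zero

omit [IsUltrametricDist X] in
lemma dist_le_dm (A : PosBalls X) {x y : X} (hx : x ∈ (A : Set X)) (hy : y ∈ (A : Set X)) :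
    dist x y ≤ dm A := dist_le_diam_of_mem (bounded A) hx hy

omit [IsUltrametricDist X] in
lemma dm_nonneg (A : PosBalls X) : 0 ≤ dm A := diam_nonneg

/-- a ball is a ball around each of its points. -/
lemma exists_radius (A : PosBalls X) : ∃ r : ℝ, 0 < r ∧ ∀ x ∈ (A : Set X),
    (A : Set X) = closedBall x r := by
  obtain ⟨A, c, r, hr, rfl⟩ := A
  exact ⟨r, hr, fun x hx => IsUltrametricDist.closedBall_eq_of_mem hx⟩

/-- A point outside a ball sees all points of the ball at the same distance, which exceeds the
diameter. -/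
lemma outside (A : PosBalls X) {x y z : X} (hx : x ∈ (A : Set X)) (hy : y ∈ (A : Set X))
    (hz : z ∉ (A : Set X)) : dist x z = dist y z ∧ dm A < dist x z := by
  obtain ⟨r, hr, h⟩ := exists_radius A
  have h1 : dist x y ≤ r := by
    have := h y hy ▸ hx
    simpa [mem_closedBall] using this
  have h2 : r < dist x z := by
    have := hz
    rw [h x hx, mem_closedBall, not_le, dist_comm] at this
    exact this
  have h3 : r < dist y z := by
    have := hz
    rw [h y hy, mem_closedBall, not_le, dist_comm] at this
    exact this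
  have hd : dm A ≤ r := by
    apply diam_le_of_forall_dist_le hr.le
    intro a ha b hb
    have := h b hb ▸ ha
    simpa [mem_closedBall] using this
  refine ⟨?_, lt_of_le_of_lt hd h2⟩
  apply le_antisymm
  · have := IsUltrametricDist.dist_triangle_max x y z
    rcases le_max_iff.mp this with h' | h'
    · linarith
    · exact h'
  · have := IsUltrametricDist.dist_triangle_max y x z
    rcases le_max_iff.mp this with h' | h'
    · rw [dist_comm y x] at h'; linarith
    · exact h'

lemma trichotomy (A B : PosBalls X) : (A : Set X) ⊆ B ∨ (B : Set X) ⊆ A ∨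
    Disjoint (A : Set X) (B : Set X) := by
  obtain ⟨A, c, r, hr, rfl⟩ := A
  obtain ⟨B, d, s, hs, rfl⟩ := B
  exact IsUltrametricDist.closedBall_subset_trichotomy _ _ _ _

omit [IsUltrametricDist X] in
/-- upper bound for the Hausdorff distance -/
lemma dH_le {A B : PosBalls X} {t : ℝ}
    (h : ∀ x ∈ (A : Set X), ∀ y ∈ (B : Set X), dist x y ≤ t) : dH A B ≤ t := by
  obtain ⟨a, ha⟩ := nonempty A
  obtain ⟨b, hb⟩ := nonempty B
  have ht : 0 ≤ t := le_trans dist_nonneg (h a ha b hb)
  apply hausdorffDist_le_of_mem_dist ht
  · intro x hx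
    exact ⟨b, hb, h x hx b hb⟩
  · intro y hy
    exact ⟨a, ha, by rw [dist_comm]; exact h a ha y hy⟩

/-- lower bound: a point of `B` outside `A` -/
lemma dist_le_dH_of_not_mem {A B : PosBalls X} {a b : X} (ha : a ∈ (A : Set X))
    (hb : b ∈ (B : Set X)) (hbA : b ∉ (A : Set X)) : dist a b ≤ dH A B := by
  have h1 : infDist b (A : Set X) ≤ dH B A :=
    infDist_le_hausdorffDist_of_mem hb (edist_ne_top B A)
  have h2 : dist a b ≤ infDist b (A : Set X) := by
    rw [le_infDist (nonempty A)]
    intro y hy
    rw [dist_comm b y, (outside A ha hy hbA).1]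
  rw [dH_comm]
  exact h2.trans h1

/-- For a proper inclusion of balls the Hausdorff distance is the diameter of the larger ball,
and the diameters are strictly increasing. -/
lemma dH_of_ssubset {A B : PosBalls X} (h : (A : Set X) ⊂ B) :
    dH A B = dm B ∧ dm A < dm B := by
  obtain ⟨hs, hn⟩ := h
  obtain ⟨b, hb, hbA⟩ := Set.not_subset.mp hn
  obtain ⟨a, ha⟩ := nonempty A
  have h0 := dist_le_dH_of_not_mem ha hb hbA
  have h1 := (outside A ha ha hbA).2
  constructor
  · apply le_antisymm
    · apply dH_le
      intro x hx y hy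
      exact dist_le_dm B (hs hx) hy
    · have key : ∀ x ∈ (B : Set X), dist a x ≤ dH A B := by
        intro x hx
        by_cases hxA : x ∈ (A : Set X)
        · have := dist_le_dm A ha hxA
          linarith
        · exact dist_le_dH_of_not_mem ha hx hxA
      apply diam_le_of_forall_dist_le (hausdorffDist_nonneg)
      intro x hx y hy
      refine (IsUltrametricDist.dist_triangle_max x a y).trans (max_le ?_ (key y hy))
      rw [dist_comm]; exact key x hx
  · exact lt_of_lt_of_le h1 (dist_le_dm B (hs ha) hb)

/-- For disjoint balls. -/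
lemma dH_of_disjoint {A B : PosBalls X} (h : Disjoint (A : Set X) (B : Set X)) {a b : X}
    (ha : a ∈ (A : Set X)) (hb : b ∈ (B : Set X)) :
    dH A B = dist a b ∧ dm A < dH A B ∧ dm B < dH A B := by
  have hbA : b ∉ (A : Set X) := fun h' => Set.disjoint_left.mp h h' hb
  have haB : a ∉ (B : Set X) := fun h' => Set.disjoint_left.mp h ha h'
  have h1 : dH A B = dist a b := by
    apply le_antisymm
    · apply dH_le
      intro x hx y hy
      have hyA : y ∉ (A : Set X) := fun h' => Set.disjoint_left.mp h h' hy
      rw [(outside A hx ha hyA).1, dist_comm a y, (outside B hy hb haB).1, dist_comm]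
    · exact dist_le_dH_of_not_mem ha hb hbA
  refine ⟨h1, ?_, ?_⟩
  · rw [h1]; exact (outside A ha ha hbA).2
  · rw [h1, dist_comm]; exact (outside B hb hb haB).2

omit [IsUltrametricDist X] in
lemma ssubset_of_ne {A B : PosBalls X} (h : A ≠ B) (hs : (A : Set X) ⊆ B) : (A : Set X) ⊂ B :=
  lt_of_le_of_ne hs (fun h' => h (Subtype.ext h'))

lemma dm_le_dH {A B : PosBalls X} (h : A ≠ B) : dm A ≤ dH A B ∧ dm B ≤ dH A B := by
  rcases trichotomy A B with h1 | h1 | h1
  · have := dH_of_ssubset (ssubset_of_ne h h1)
    exact ⟨by rw [this.1]; exact this.2.le, by rw [this.1]⟩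
  · have := dH_of_ssubset (ssubset_of_ne h.symm h1)
    rw [dH_comm]
    exact ⟨by rw [this.1], by rw [this.1]; exact this.2.le⟩
  · obtain ⟨a, ha⟩ := nonempty A
    obtain ⟨b, hb⟩ := nonempty B
    have := dH_of_disjoint h1 ha hb
    exact ⟨this.2.1.le, this.2.2.le⟩

/-- points of different balls are at distance at most the Hausdorff distance -/
lemma dist_le_dH {A B : PosBalls X} (h : A ≠ B) {x y : X} (hx : x ∈ (A : Set X))
    (hy : y ∈ (B : Set X)) : dist x y ≤ dH A B := by
  rcases trichotomy A B with h1 | h1 | h1
  · rw [(dH_of_ssubset (ssubset_of_ne h h1)).1]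
    exact dist_le_dm B (h1 hx) hy
  · rw [dH_comm, (dH_of_ssubset (ssubset_of_ne h.symm h1)).1]
    exact dist_le_dm A hx (h1 hy)
  · rw [(dH_of_disjoint h1 hx hy).1]

lemma dH_ultra (A B C : PosBalls X) : dH A C ≤ max (dH A B) (dH B C) := by
  by_cases h1 : A = B
  · subst h1; exact le_max_right _ _
  by_cases h2 : B = C
  · subst h2; exact le_max_left _ _
  apply dH_le
  intro x hx z hz
  obtain ⟨y, hy⟩ := nonempty B
  exact (IsUltrametricDist.dist_triangle_max x y z).trans
    (max_le_max (dist_le_dH h1 hx hy) (dist_le_dH h2 hy hz))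

lemma dH_pos {A B : PosBalls X} (h : A ≠ B) : 0 < dH A B := by
  rcases trichotomy A B with h1 | h1 | h1
  · have := dH_of_ssubset (ssubset_of_ne h h1)
    rw [this.1]
    exact lt_of_le_of_lt (dm_nonneg A) this.2
  · have := dH_of_ssubset (ssubset_of_ne h.symm h1)
    rw [dH_comm, this.1]
    exact lt_of_le_of_lt (dm_nonneg B) this.2
  · obtain ⟨a, ha⟩ := nonempty A
    obtain ⟨b, hb⟩ := nonempty B
    exact lt_of_le_of_lt (dm_nonneg A) (dH_of_disjoint h1 ha hb).2.1

/-- If the distance of `A` to `B` is at most the diameter of `B` then `A` is properly contained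
in `B`. -/
lemma ssubset_of_dH_le {A B : PosBalls X} (h : A ≠ B) (hd : dH A B ≤ dm B) :
    (A : Set X) ⊂ B := by
  rcases trichotomy A B with h1 | h1 | h1
  · exact ssubset_of_ne h h1
  · have := dH_of_ssubset (ssubset_of_ne h.symm h1)
    rw [dH_comm] at this
    linarith [this.1, this.2]
  · obtain ⟨a, ha⟩ := nonempty A
    obtain ⟨b, hb⟩ := nonempty B
    have := (dH_of_disjoint h1 ha hb).2.2
    linarith

/-- a ball with positive diameter properly contains a smaller ball -/
lemma exists_ssubset {B : PosBalls X} (h : 0 < dm B) : ∃ A : PosBalls X, (A : Set X) ⊂ B := by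
  obtain ⟨b, hb⟩ := nonempty B
  refine ⟨mk b (dm B / 2) (by positivity), ?_⟩
  have hd : dm (mk b (dm B / 2) (by positivity)) ≤ dm B / 2 := by
    apply diam_le_of_forall_dist_le (by positivity)
    intro x hx y hy
    have hx' : dist x b ≤ dm B / 2 := hx
    have hy' : dist y b ≤ dm B / 2 := hy
    refine (IsUltrametricDist.dist_triangle_max x b y).trans (max_le hx' ?_)
    rw [dist_comm]; exact hy'
  have hne : mk b (dm B / 2) (by positivity) ≠ B := by
    intro h'
    rw [h'] at hd
    linarith
  rcases trichotomy (mk b (dm B / 2) (by positivity)) B with h1 | h1 | h1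
  · exact ssubset_of_ne hne h1
  · have := (dH_of_ssubset (ssubset_of_ne hne.symm h1)).2
    linarith
  · exact absurd hb (Set.disjoint_left.mp h1 (mem_closedBall_self (by positivity)))

/-- two balls with the same diameter and a common sub-ball coincide -/
lemma eq_of_common {A T T' : PosBalls X} (h : (A : Set X) ⊆ T) (h' : (A : Set X) ⊆ T')
    (hd : dm T = dm T') : T = T' := by
  by_contra hne
  rcases trichotomy T T' with h1 | h1 | h1
  · have := (dH_of_ssubset (ssubset_of_ne hne h1)).2
    linarith
  · have := (dH_of_ssubset (ssubset_of_ne (Ne.symm hne) h1)).2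
    linarith
  · obtain ⟨a, ha⟩ := nonempty A
    exact Set.disjoint_left.mp h1 (h ha) (h' ha)

/-- `r` is the attained positive minimal distance of `A` to the other balls. -/
def IsMin (A : PosBalls X) (r : ℝ) : Prop :=
  (∀ B, B ≠ A → r ≤ dH A B) ∧ ∃ B, B ≠ A ∧ dH A B = r

omit [IsUltrametricDist X] in
lemma IsMin.unique {A : PosBalls X} {r s : ℝ} (hr : IsMin A r) (hs : IsMin A s) : r = s := by
  obtain ⟨h1, B, hB, h2⟩ := hr
  obtain ⟨h3, C, hC, h4⟩ := hs
  exact le_antisymm (h4 ▸ h1 C hC) (h2 ▸ h3 B hB)

lemma isMin_dm {A : PosBalls X} (h : 0 < dm A) : IsMin A (dm A) := by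
  refine ⟨fun B hB => (dm_le_dH hB.symm).1, ?_⟩
  obtain ⟨B, hB⟩ := exists_ssubset h
  have hne : B ≠ A := fun h' => hB.ne (by rw [h'])
  exact ⟨B, hne, by rw [dH_comm]; exact (dH_of_ssubset hB).1⟩

/-- the ball directly above an isolated point whose nearest distance is attained -/
lemma exists_top {A : PosBalls X} {r : ℝ} (h : IsMin A r) (h0 : dm A = 0) :
    ∃ T : PosBalls X, (A : Set X) ⊂ T ∧ dm T = r := by
  obtain ⟨h1, B, hB, h2⟩ := h
  rcases trichotomy A B with h3 | h3 | h3
  · have h4 := ssubset_of_ne hB.symm h3
    exact ⟨B, h4, by rw [← (dH_of_ssubset h4).1, h2]⟩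
  · have h4 := (dH_of_ssubset (ssubset_of_ne hB h3)).2
    have := dm_nonneg B
    linarith
  · obtain ⟨a, ha⟩ := nonempty A
    obtain ⟨b, hb⟩ := nonempty B
    have h4 := dH_of_disjoint h3 ha hb
    have hr : 0 < r := by rw [← h2]; exact dH_pos hB.symm
    have hab : dist a b = r := by rw [← h4.1, h2]
    have hbA : b ∉ (A : Set X) := fun h' => Set.disjoint_left.mp h3 h' hb
    refine ⟨mk a r hr, ?_, ?_⟩
    · constructor
      · intro x hx
        have := dist_le_dm A hx ha
        show dist x a ≤ r
        linarith
      · intro hsub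
        apply hbA
        apply hsub
        show dist b a ≤ r
        rw [dist_comm, hab]
    · apply le_antisymm
      · apply diam_le_of_forall_dist_le hr.le
        intro x hx y hy
        have hx' : dist x a ≤ r := hx
        have hy' : dist y a ≤ r := hy
        refine (IsUltrametricDist.dist_triangle_max x a y).trans (max_le hx' ?_)
        rw [dist_comm]; exact hy'
      · have hmem : dist a b ≤ dm (mk a r hr) := by
          apply dist_le_dm (mk a r hr)
          · exact mem_closedBall_self hr.le
          · show dist b a ≤ r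
            rw [dist_comm, hab]
        rwa [hab] at hmem

end One

section Two

variable {X : Type u} {Y : Type v} [MetricSpace X] [MetricSpace Y]
  [IsUltrametricDist X] [IsUltrametricDist Y]

/-- distance preserving bijections of ball spaces -/
def Pres (e : PosBalls X ≃ PosBalls Y) : Prop := ∀ A B, dH (e A) (e B) = dH A B

omit [IsUltrametricDist X] [IsUltrametricDist Y] in
lemma Pres.symm {e : PosBalls X ≃ PosBalls Y} (h : Pres e) : Pres e.symm := by
  intro A B
  rw [← h (e.symm A) (e.symm B)]
  simp

omit [IsUltrametricDist X] [IsUltrametricDist Y] in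
lemma Pres.isMin {e : PosBalls X ≃ PosBalls Y} (h : Pres e) {A : PosBalls X} {r : ℝ}
    (hA : IsMin A r) : IsMin (e A) r := by
  obtain ⟨h1, B, hB, h2⟩ := hA
  refine ⟨fun C hC => ?_, e B, fun h' => hB (e.injective h'), by rw [h, h2]⟩
  have := h1 (e.symm C) (fun h' => hC (by rw [← h']; simp))
  rw [← h] at this
  simpa using this

/-- the corrected map at a ball -/
def Corr (e : PosBalls X ≃ PosBalls Y) (A : PosBalls X) (C : PosBalls Y) : Prop :=
  (0 < dm A ∧ 0 < dm (e A) ∧ C = e A) ∨ (dm A = 0 ∧ dm (e A) = 0 ∧ C = e A) ∨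
  (0 < dm A ∧ dm (e A) = 0 ∧ (e A : Set Y) ⊂ C ∧ dm C = dm A) ∨
  (dm A = 0 ∧ 0 < dm (e A) ∧ ∃ T : PosBalls X, (A : Set X) ⊂ T ∧ dm T = dm (e A) ∧ C = e T)

lemma corr_exists {e : PosBalls X ≃ PosBalls Y} (h : Pres e) (A : PosBalls X) :
    ∃ C, Corr e A C := by
  rcases (dm_nonneg A).lt_or_eq with h1 | h1 <;> rcases (dm_nonneg (e A)).lt_or_eq with h2 | h2
  · exact ⟨e A, Or.inl ⟨h1, h2, rfl⟩⟩
  · obtain ⟨T, hT1, hT2⟩ := exists_top (h.isMin (isMin_dm h1)) h2.symm
    exact ⟨T, Or.inr (Or.inr (Or.inl ⟨h1, h2.symm, hT1, hT2⟩))⟩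
  · have h3 : IsMin A (dm (e A)) := by
      have := h.symm.isMin (isMin_dm h2)
      simpa using this
    obtain ⟨T, hT1, hT2⟩ := exists_top h3 h1.symm
    exact ⟨e T, Or.inr (Or.inr (Or.inr ⟨h1.symm, h2, T, hT1, hT2, rfl⟩))⟩
  · exact ⟨e A, Or.inr (Or.inl ⟨h1.symm, h2.symm, rfl⟩)⟩

/-- the relation is symmetric under passing to the inverse bijection -/
lemma corr_symm {e : PosBalls X ≃ PosBalls Y} (h : Pres e) {A : PosBalls X} {C : PosBalls Y}
    (hc : Corr e A C) : Corr e.symm C A := by
  rcases hc with ⟨h1, h2, h3⟩ | ⟨h1, h2, h3⟩ | ⟨h1, h2, h3, h4⟩ | ⟨h1, h2, T, h3, h4, h5⟩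
  · left
    subst h3
    simpa using ⟨h2, h1⟩
  · right; left
    subst h3
    simpa using ⟨h2, h1⟩
  · -- `C` is the top of `e A`
    have hneC : e A ≠ C := fun h' => h3.ne (by rw [h'])
    have hdist : dH (e.symm C) A = dm A := by
      have := h.symm C (e A)
      rw [Equiv.symm_apply_apply] at this
      rw [this, dH_comm, (dH_of_ssubset h3).1, h4]
    have hneA : e.symm C ≠ A := by
      intro h'
      apply hneC
      rw [← h']; simp
    have hsub := ssubset_of_dH_le hneA hdist.le
    have hlt := (dH_of_ssubset hsub).2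
    have hC : 0 < dm C := by rw [h4]; exact h1
    have hmin := h.symm.isMin (isMin_dm hC)
    have hz : dm (e.symm C) = 0 := by
      rcases (dm_nonneg (e.symm C)).lt_or_eq with h6 | h6
      · have := (isMin_dm h6).unique hmin
        linarith
      · exact h6.symm
    right; right; left
    exact ⟨hC, hz, hsub, h4.symm⟩
  · -- `A` is a point, `C = e T`
    subst h5
    have hne : A ≠ T := fun h' => h3.ne (by rw [h'])
    have hdist : dH (e T) (e A) = dm (e A) := by
      rw [h, dH_comm, (dH_of_ssubset h3).1, h4]
    have hne' : e T ≠ e A := fun h' => hne (e.injective h').symm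
    have hsub := ssubset_of_dH_le hne' hdist.le
    have hlt := (dH_of_ssubset hsub).2
    have hT : 0 < dm T := by rw [h4]; exact h2
    have hmin := h.isMin (isMin_dm hT)
    have hz : dm (e T) = 0 := by
      rcases (dm_nonneg (e T)).lt_or_eq with h6 | h6
      · have := (isMin_dm h6).unique hmin
        linarith
      · exact h6.symm
    right; right; right
    refine ⟨hz, by simpa using hT, e A, hsub, ?_, by simp⟩
    simpa using h4.symm

/-- the value of the corrected map is unique -/
lemma corr_unique {e : PosBalls X ≃ PosBalls Y} {A : PosBalls X} {C C' : PosBalls Y}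
    (hc : Corr e A C) (hc' : Corr e A C') : C = C' := by
  rcases hc with ⟨h1, h2, h3⟩ | ⟨h1, h2, h3⟩ | ⟨h1, h2, h3, h4⟩ | ⟨h1, h2, T, h3, h4, h5⟩ <;>
  rcases hc' with ⟨g1, g2, g3⟩ | ⟨g1, g2, g3⟩ | ⟨g1, g2, g3, g4⟩ | ⟨g1, g2, T', g3, g4, g5⟩ <;>
  first
    | (rw [h3, g3])
    | (exfalso; linarith)
    | exact eq_of_common h3.subset g3.subset (h4.trans g4.symm)
    | (rw [h5, g5, eq_of_common h3.subset g3.subset (h4.trans g4.symm)])

/-- the corrected map moves the image by at most the minimal distance -/
lemma corr_near {e : PosBalls X ≃ PosBalls Y} (h : Pres e) {A B : PosBalls X} (hAB : A ≠ B)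
    {C : PosBalls Y} (hc : Corr e A C) : dH (e A) C ≤ dH A B := by
  rcases hc with ⟨h1, h2, h3⟩ | ⟨h1, h2, h3⟩ | ⟨h1, h2, h3, h4⟩ | ⟨h1, h2, T, h3, h4, h5⟩
  · rw [h3, dH_self]; exact hausdorffDist_nonneg
  · rw [h3, dH_self]; exact hausdorffDist_nonneg
  · rw [(dH_of_ssubset h3).1, h4]
    exact (dm_le_dH hAB).1
  · rw [h5, h, (dH_of_ssubset h3).1, h4]
    rw [← h]
    exact (dm_le_dH (fun h' => hAB (e.injective h'))).1

lemma corr_le {e : PosBalls X ≃ PosBalls Y} (h : Pres e) {A B : PosBalls X}
    {C D : PosBalls Y} (hc : Corr e A C) (hd : Corr e B D) : dH C D ≤ dH A B := by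
  by_cases hAB : A = B
  · subst hAB
    rw [corr_unique hc hd, dH_self]
    exact hausdorffDist_nonneg
  have h1 := corr_near h hAB hc
  have h2 := corr_near h (Ne.symm hAB) hd
  rw [dH_comm B A] at h2
  have h3 := h A B
  calc dH C D ≤ max (dH C (e A)) (dH (e A) D) := dH_ultra _ _ _
    _ ≤ max (dH C (e A)) (max (dH (e A) (e B)) (dH (e B) D)) :=
        max_le_max le_rfl (dH_ultra _ _ _)
    _ ≤ dH A B := by
        rw [dH_comm C (e A)]
        exact max_le h1 (max_le h3.le h2)

/-- Correction lemma: from a distance preserving bijection one obtains one which moreover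
preserves diameters. -/
lemma exists_corrected (e : PosBalls X ≃ PosBalls Y) (h : Pres e) :
    ∃ f : PosBalls X ≃ PosBalls Y, Pres f ∧ ∀ A, dm (f A) = dm A := by
  choose F hF using corr_exists h
  choose G hG using corr_exists h.symm
  have hGF : ∀ A, G (F A) = A := fun A => corr_unique (hG (F A)) (corr_symm h (hF A))
  have hFG : ∀ C, F (G C) = C := fun C => by
    have := corr_symm h.symm (hG C)
    rw [Equiv.symm_symm] at this
    exact corr_unique (hF (G C)) this
  let f : PosBalls X ≃ PosBalls Y := ⟨F, G, hGF, hFG⟩
  have hf : Pres f := by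
    intro A B
    apply le_antisymm
    · exact corr_le h (hF A) (hF B)
    · have := corr_le h.symm (hG (F A)) (hG (F B))
      rwa [hGF, hGF] at this
  refine ⟨f, hf, fun A => ?_⟩
  have hc : Corr e A (f A) := hF A
  rcases hc with ⟨h1, h2, h3⟩ | ⟨h1, h2, h3⟩ | ⟨h1, h2, h3, h4⟩ | ⟨h1, h2, T, h3, h4, h5⟩
  · have h4 : 0 < dm (f A) := by rw [h3]; exact h2
    exact (isMin_dm h4).unique (hf.isMin (isMin_dm h1))
  · rw [h3, h2, h1]
  · exact h4
  · have hs := corr_symm h (hF A)
    rcases hs with ⟨g1, g2, g3⟩ | ⟨g1, g2, g3⟩ | ⟨g1, g2, g3, g4⟩ | ⟨g1, g2, T', g3, g4, g5⟩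
    · have : F A = e A := by
        have h7 := congrArg e g3
        rw [Equiv.apply_symm_apply] at h7
        exact h7.symm
      have h6 : e T = e A := by rw [← this]; exact h5.symm
      exact absurd (e.injective h6) (fun h' => h3.ne (by rw [h']))
    · show dm (F A) = dm A
      rw [g1, h1]
    · have : 0 < dm A := by rw [g4]; exact g1
      linarith
    · show dm (F A) = dm A
      rw [g1, h1]

lemma mono_of {f : PosBalls X ≃ PosBalls Y} (hf : Pres f) (hd : ∀ A, dm (f A) = dm A)
    {A B : PosBalls X} (h : (A : Set X) ⊆ B) : (f A : Set Y) ⊆ f B := by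
  by_cases hAB : A = B
  · rw [hAB]
  have h1 := (dH_of_ssubset (ssubset_of_ne hAB h)).1
  have h2 : dH (f A) (f B) ≤ dm (f B) := by rw [hf, hd, h1]
  exact (ssubset_of_dH_le (fun h' => hAB (f.injective h')) h2).subset

lemma pow_pos' (n : ℕ) : (0 : ℝ) < (1 / 2) ^ n := by positivity

lemma dm_mk_le (x : X) (r : ℝ) (hr : 0 < r) : dm (mk x r hr) ≤ r := by
  apply diam_le_of_forall_dist_le hr.le
  intro a ha b hb
  have ha' : dist a x ≤ r := ha
  have hb' : dist b x ≤ r := hb
  refine (IsUltrametricDist.dist_triangle_max a x b).trans (max_le ha' ?_)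
  rw [dist_comm]; exact hb'

/-- A ball space isometry which preserves diameters induces an isometry of completions. -/
theorem completions_of_corrected (f : PosBalls X ≃ PosBalls Y) (hf : Pres f)
    (hd : ∀ A, dm (f A) = dm A) :
    Nonempty (Completion X ≃ᵢ Completion Y) := by
  classical
  -- the balls around `x`
  let B : X → ℕ → PosBalls X := fun x n => mk x ((1 / 2) ^ n) (pow_pos' n)
  choose y hy using fun (x : X) (n : ℕ) => nonempty (f (B x n))
  have hBmono : ∀ x {m n : ℕ}, n ≤ m → (B x m : Set X) ⊆ B x n := by
    intro x m n hmn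
    apply closedBall_subset_closedBall
    exact pow_le_pow_of_le_one (by norm_num) (by norm_num) hmn
  have hymem : ∀ x {m n : ℕ}, n ≤ m → y x m ∈ (f (B x n) : Set Y) := by
    intro x m n hmn
    exact mono_of hf hd (hBmono x hmn) (hy x m)
  have hcauchy : ∀ x, CauchySeq (fun n => ((y x n : Y) : Completion Y)) := by
    intro x
    apply cauchySeq_of_le_geometric (1 / 2) 1 (by norm_num)
    intro n
    rw [Completion.dist_eq]
    calc dist (y x n) (y x (n + 1)) ≤ dm (f (B x n)) :=
          dist_le_dm _ (hymem x le_rfl) (hymem x (Nat.le_succ n))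
      _ = dm (B x n) := hd _
      _ ≤ 1 * (1 / 2) ^ n := by rw [one_mul]; exact dm_mk_le _ _ _
  choose F hF using fun x => cauchySeq_tendsto_of_complete (hcauchy x)
  have hiso : Isometry F := by
    apply Isometry.of_dist_eq
    intro x x'
    by_cases hxx : x = x'
    · subst hxx; simp
    have hpos : 0 < dist x x' := dist_pos.mpr hxx
    obtain ⟨N, hN⟩ := exists_pow_lt_of_lt_one hpos (by norm_num : (1 / 2 : ℝ) < 1)
    have key : ∀ n ≥ N, dist ((y x n : Y) : Completion Y) (y x' n) = dist x x' := by
      intro n hn
      rw [Completion.dist_eq]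
      have hlt : (1 / 2 : ℝ) ^ n < dist x x' :=
        lt_of_le_of_lt (pow_le_pow_of_le_one (by norm_num) (by norm_num) hn) hN
      have hdisj : Disjoint (B x n : Set X) (B x' n : Set X) := by
        rcases IsUltrametricDist.closedBall_eq_or_disjoint x x' ((1 / 2 : ℝ) ^ n) with h1 | h1
        · exfalso
          have : x ∈ closedBall x' ((1 / 2 : ℝ) ^ n) := by
            rw [← h1]; exact mem_closedBall_self (pow_pos' n).le
          rw [mem_closedBall] at this
          linarith
        · exact h1
      have hx : x ∈ (B x n : Set X) := mem_closedBall_self (pow_pos' n).le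
      have hx' : x' ∈ (B x' n : Set X) := mem_closedBall_self (pow_pos' n).le
      obtain ⟨e1, e2, e3⟩ := dH_of_disjoint hdisj hx hx'
      have e4 : dH (f (B x n)) (f (B x' n)) = dist x x' := by rw [hf, e1]
      have hneB : B x n ≠ B x' n := by
        intro h'
        rw [h', dH_self] at e1
        linarith
      have hdisj' : Disjoint (f (B x n) : Set Y) (f (B x' n) : Set Y) := by
        rcases trichotomy (f (B x n)) (f (B x' n)) with h1 | h1 | h1
        · have h2 := (dH_of_ssubset
            (ssubset_of_ne (fun h' => hneB (f.injective h')) h1)).1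
          rw [hf, hd] at h2
          linarith
        · have h2 := (dH_of_ssubset
            (ssubset_of_ne (fun h' => hneB (f.injective h').symm) h1)).1
          rw [hf, hd, dH_comm] at h2
          linarith
        · exact h1
      rw [← (dH_of_disjoint hdisj' (hy x n) (hy x' n)).1, e4]
    have t1 : Filter.Tendsto (fun n => dist ((y x n : Y) : Completion Y) (y x' n)) Filter.atTop
        (nhds (dist (F x) (F x'))) := (hF x).dist (hF x')
    have t2 : Filter.Tendsto (fun n => dist ((y x n : Y) : Completion Y) (y x' n)) Filter.atTop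
        (nhds (dist x x')) := by
      apply tendsto_const_nhds.congr'
      filter_upwards [Filter.eventually_ge_atTop N] with n hn
      exact (key n hn).symm
    exact tendsto_nhds_unique t1 t2
  -- dense range
  have hdense : DenseRange F := by
    have h1 : ∀ z : Y, (z : Completion Y) ∈ closure (range F) := by
      intro z
      rw [Metric.mem_closure_iff]
      intro ε hε
      have hε2 : 0 < ε / 2 := by positivity
      obtain ⟨A, hA⟩ : ∃ A, f A = mk z (ε / 2) hε2 := ⟨f.symm (mk z (ε / 2) hε2), by simp⟩
      obtain ⟨x, hx⟩ := nonempty A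
      obtain ⟨r, hr, hr'⟩ := exists_radius A
      obtain ⟨N, hN⟩ := exists_pow_lt_of_lt_one hr (by norm_num : (1 / 2 : ℝ) < 1)
      refine ⟨F x, mem_range_self x, ?_⟩
      have hcl : dist (z : Completion Y) (F x) ≤ ε / 2 := by
        have t : Filter.Tendsto (fun n => dist (z : Completion Y) (y x n)) Filter.atTop
            (nhds (dist (z : Completion Y) (F x))) := tendsto_const_nhds.dist (hF x)
        apply le_of_tendsto t
        filter_upwards [Filter.eventually_ge_atTop N] with n hn
        rw [Completion.dist_eq]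
        have hsub : (B x n : Set X) ⊆ A := by
          rw [hr' x hx]
          apply closedBall_subset_closedBall
          exact (lt_of_le_of_lt (pow_le_pow_of_le_one (by norm_num) (by norm_num) hn) hN).le
        have : y x n ∈ (f A : Set Y) := mono_of hf hd hsub (hy x n)
        rw [hA] at this
        have h2 : dist (y x n) z ≤ ε / 2 := this
        rw [dist_comm]; exact h2
      linarith
    have h2 : range ((↑) : Y → Completion Y) ⊆ closure (range F) := by
      rintro _ ⟨z, rfl⟩
      exact h1 z
    have h3 : Dense (closure (range F)) :=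
      (Completion.denseRange_coe (α := Y)).mono h2
    exact h3.of_closure
  -- extend to the completion
  let E : Completion X → Completion Y := Completion.extension F
  have hE : Isometry E := hiso.completion_extension
  have hEcoe : ∀ x : X, E x = F x := fun x =>
    Completion.extension_coe hiso.uniformContinuous x
  have hclosed : IsClosed (range E) := hE.isClosedEmbedding.isClosed_range
  have hsurj : Function.Surjective E := by
    have h1 : range F ⊆ range E := by
      rintro _ ⟨x, rfl⟩
      exact ⟨x, hEcoe x⟩
    have h2 : Dense (range E) := hdense.mono h1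
    rw [← Set.range_eq_univ, ← hclosed.closure_eq]
    exact h2.closure_eq
  exact ⟨IsometryEquiv.mk (Equiv.ofBijective E ⟨hE.injective, hsurj⟩) hE⟩

end Two

section Three

variable {X : Type u} {Y : Type v} [MetricSpace X] [MetricSpace Y]

/-- the completion of an ultrametric space is ultrametric -/
lemma completion_ultra [IsUltrametricDist X] : IsUltrametricDist (Completion X) := by
  constructor
  intro x y z
  refine Completion.induction_on₃ x y z ?_ ?_
  · apply isClosed_le
    · exact (continuous_fst.dist (continuous_snd.comp continuous_snd))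
    · exact (continuous_fst.dist (continuous_fst.comp continuous_snd)).max
        ((continuous_fst.comp continuous_snd).dist (continuous_snd.comp continuous_snd))
  · intro a b c
    rw [Completion.dist_eq, Completion.dist_eq, Completion.dist_eq]
    exact IsUltrametricDist.dist_triangle_max a b c

/-- the closure of a ball in the completion -/
lemma closure_closedBall [IsUltrametricDist X] (c : X) (r : ℝ) (hr : 0 < r) :
    closure (((↑) : X → Completion X) '' closedBall c r) = closedBall (c : Completion X) r := by
  have := completion_ultra (X := X)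
  apply Set.Subset.antisymm
  · apply closure_minimal _ isClosed_closedBall
    rintro _ ⟨z, hz, rfl⟩
    rw [mem_closedBall, Completion.dist_eq]
    exact hz
  · intro w hw
    rw [mem_closure_iff_nhds]
    intro U hU
    have hopen : closedBall (c : Completion X) r ∈ nhds w :=
      (IsUltrametricDist.isOpen_closedBall _ hr.ne').mem_nhds hw
    obtain ⟨z, hz⟩ := (Completion.denseRange_coe (α := X)).exists_mem_open
      (isOpen_interior (s := U ∩ closedBall (c : Completion X) r))
      ⟨w, mem_interior_iff_mem_nhds.mpr (Filter.inter_mem hU hopen)⟩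
    have hz' := interior_subset hz
    refine ⟨z, hz'.1, z, ?_, rfl⟩
    have := hz'.2
    rw [mem_closedBall, Completion.dist_eq] at this
    exact this

/-- transport of a ball through an isometry of completions -/
lemma transport [IsUltrametricDist X] [IsUltrametricDist Y] (F : Completion X ≃ᵢ Completion Y)
    (A : PosBalls X) : ∃ C : PosBalls Y,
      closure (((↑) : Y → Completion Y) '' (C : Set Y)) =
        F '' closure (((↑) : X → Completion X) '' (A : Set X)) := by
  have := completion_ultra (X := Y)
  obtain ⟨A, c, r, hr, rfl⟩ := A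
  obtain ⟨d, hd⟩ : ∃ d : Y, dist (d : Completion Y) (F c) ≤ r := by
    obtain ⟨d, hd⟩ := (Completion.denseRange_coe (α := Y)).exists_dist_lt (F c) hr
    exact ⟨d, by rw [dist_comm]; exact hd.le⟩
  refine ⟨mk d r hr, ?_⟩
  show closure (((↑) : Y → Completion Y) '' closedBall d r) =
        F '' closure (((↑) : X → Completion X) '' closedBall c r)
  rw [closure_closedBall d r hr, closure_closedBall c r hr, F.image_closedBall]
  exact (IsUltrametricDist.closedBall_eq_of_mem (x := F c) (y := (d : Completion Y)) hd).symm

lemma isClosed_ball' (A : PosBalls X) : IsClosed (A : Set X) := by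
  obtain ⟨A, c, r, hr, rfl⟩ := A
  exact isClosed_closedBall

/-- a ball is determined by its closure in the completion -/
lemma closure_inj {A B : PosBalls X}
    (h : closure (((↑) : X → Completion X) '' (A : Set X)) =
      closure (((↑) : X → Completion X) '' (B : Set X))) : A = B := by
  apply Subtype.ext
  have key : ∀ C : PosBalls X, (C : Set X) =
      ((↑) : X → Completion X) ⁻¹' closure (((↑) : X → Completion X) '' (C : Set X)) := by
    intro C
    rw [← (Completion.isUniformInducing_coe X).isInducing.closure_eq_preimage_closure_image,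
      (isClosed_ball' C).closure_eq]
  rw [key A, key B, h]

theorem balls_of_completions [IsUltrametricDist X] [IsUltrametricDist Y]
    (F : Completion X ≃ᵢ Completion Y) : BallSpacesIsometric X Y := by
  choose Φ hΦ using transport F
  choose Ψ hΨ using transport F.symm
  have h1 : ∀ A, Ψ (Φ A) = A := by
    intro A
    apply closure_inj
    rw [hΨ, hΦ, ← Set.image_comp]
    simp
  have h2 : ∀ C, Φ (Ψ C) = C := by
    intro C
    apply closure_inj
    rw [hΦ, hΨ, ← Set.image_comp]
    simp
  refine ⟨⟨Φ, Ψ, h1, h2⟩, fun A B => ?_⟩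
  show hausdorffDist (Φ A : Set Y) (Φ B : Set Y) = hausdorffDist (A : Set X) (B : Set X)
  rw [← hausdorffDist_image (Completion.coe_isometry (α := Y)), ← hausdorffDist_closure,
    hΦ, hΦ, hausdorffDist_image F.isometry, hausdorffDist_closure,
    hausdorffDist_image (Completion.coe_isometry (α := X))]

end Three

/-- For nonempty ultrametric spaces `X` and `Y`: the completions are isometric if and only if
the spaces of closed balls of strictly positive radius, with the Hausdorff distance, are
isometric. -/
theorem result (X : Type u) (Y : Type v) [MetricSpace X] [MetricSpace Y]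
    [IsUltrametricDist X] [IsUltrametricDist Y] [Nonempty X] [Nonempty Y] :
    Nonempty (Completion X ≃ᵢ Completion Y) ↔ BallSpacesIsometric X Y := by
  constructor
  · rintro ⟨F⟩
    exact balls_of_completions F
  · rintro ⟨e, he⟩
    obtain ⟨f, hf, hd⟩ := exists_corrected e he
    exact completions_of_corrected f hf hd

end Pool.Agent.Results.MP_856f66_gt.BallSpaceIsometry
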